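import Pool.Agent.helper1.FI4.SpecHT
import Pool.Agent.helper92.FIB.QUN

set_option autoImplicit false

namespace Pool.Agent.FI4

open Pool.Agent.helper58.DC Pool.Agent.DI Pool.Agent.GR Pool.Agent.OB Pool.Agent.DR Pool.Agent.FI Pool.Agent.FI3

theorem IAP_cz_bot {G : Type} [Group G] : cz (⊥ : Subgroup G) = ⊤ := by
  rw [eq_top_iff]
  intro x _
  rw [Subgroup.mem_centralizer_iff]
  intro h hh
  have h1 : h = 1 := by simpa using hh
  rw [h1, one_mul, mul_one]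

theorem IAP_int {p : ℕ} {M : Ideal (integralClosure ℤ ℂ)} (hS : Setup p M) {a b : ℕ} (ha : a ≠ 0) (hb : b ≠ 0)
    (h : padicValNat p b ≤ padicValNat p a) : IntAt M ((a : ℂ) / b) := by
  have hpf : Fact p.Prime := ⟨hS.pr⟩
  obtain ⟨v, a', ha', rfl⟩ := Nat.exists_eq_pow_mul_and_not_dvd ha p hS.pr.ne_one
  obtain ⟨w, b', hb', rfl⟩ := Nat.exists_eq_pow_mul_and_not_dvd hb p hS.pr.ne_one
  have hp0 : (p : ℂ) ≠ 0 := hS.p_ne
  have ha0 : a' ≠ 0 := by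
    rintro rfl
    exact ha' (dvd_zero p)
  have hb0 : b' ≠ 0 := by
    rintro rfl
    exact hb' (dvd_zero p)
  have ea : padicValNat p (p ^ v * a') = v := by
    rw [padicValNat.mul (pow_ne_zero _ hS.pr.ne_zero) ha0, padicValNat.prime_pow,
      padicValNat.eq_zero_of_not_dvd ha', add_zero]
  have eb : padicValNat p (p ^ w * b') = w := by
    rw [padicValNat.mul (pow_ne_zero _ hS.pr.ne_zero) hb0, padicValNat.prime_pow,
      padicValNat.eq_zero_of_not_dvd hb', add_zero]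
  rw [ea, eb] at h
  obtain ⟨k, rfl⟩ := Nat.exists_eq_add_of_le h
  have e : (((p ^ (w + k) * a' : ℕ) : ℂ) / ((p ^ w * b' : ℕ) : ℂ)) = ((p ^ k : ℕ) : ℂ) * ((a' : ℂ) / b') := by
    have hb0' : (b' : ℂ) ≠ 0 := by exact_mod_cast hb0
    push_cast
    rw [pow_add]
    field_simp
  rw [e]
  exact IntAt.mul hS (IntAt.natCast hS _) (QUN_unit hS ha' hb').1

theorem IAP (hUDD : UDD_stmt) (hNZ3 : NZ3_stmt) : IAP_stmt := by
  intro p M hS G _ _ D x θ χ hR u hu hg ψ hψ d hd hd0 hv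
  have hpf : Fact p.Prime := ⟨hS.pr⟩
  have hψ' : ψ ∈ Bl M (cz (⊥ : Subgroup G)) θ := by
    rw [IAP_cz_bot]
    exact hψ
  have h1 := hNZ3 p M hS G D x θ χ hR ⊥ bot_le u hu hg ψ hψ'
  have h2 := hUDD p M hS G D x θ χ hR ⊥ bot_le u hu hg ψ hψ'
  rw [IAP_cz_bot] at h1 h2
  refine ⟨h1, ?_⟩
  rw [Subgroup.card_top] at h2
  have hG0 : Nat.card G ≠ 0 := Nat.card_pos.ne'
  have hD0 : Nat.card D ≠ 0 := Nat.card_pos.ne'
  have hp0 : p ≠ 0 := hS.pr.ne_zero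
  have h3 : IntAt M (((Nat.card D * d : ℕ) : ℂ) / ((Nat.card G * p : ℕ) : ℂ)) := by
    refine IAP_int hS (mul_ne_zero hD0 hd0) (mul_ne_zero hG0 hp0) ?_
    rw [padicValNat.mul hD0 hd0, padicValNat.mul hG0 hp0, padicValNat.self hS.pr.one_lt]
    exact hv
  have h4 := IntAt.mul hS h2 h3
  have e : (Nat.card G : ℂ) / Nat.card D * (dd M (Cz (⊤ : Subgroup G) u) θ ψ u / ψ 1) *
      (((Nat.card D * d : ℕ) : ℂ) / ((Nat.card G * p : ℕ) : ℂ)) = dd M (Cz (⊤ : Subgroup G) u) θ ψ u / (p : ℂ) := by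
    have a1 : (Nat.card G : ℂ) ≠ 0 := by exact_mod_cast hG0
    have a2 : (Nat.card D : ℂ) ≠ 0 := by exact_mod_cast hD0
    have a3 : (p : ℂ) ≠ 0 := hS.p_ne
    have a4 : (d : ℂ) ≠ 0 := by exact_mod_cast hd0
    rw [hd]
    push_cast
    field_simp
  rw [e] at h4
  exact h4

end Pool.Agent.FI4
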